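import Pool.Agent.V5helper49.LR.Stm

set_option autoImplicit false
set_option maxHeartbeats 4000000

namespace Pool.Agent.V5helper72.LR

open Finset Pool.Agent.V5helper49.LR

/-- the claim for a function of two sets -/
def Cl (V : Finset ℕ) (w : ℕ) (v : ℕ) (F : Finset ℕ → Finset ℕ → ℝ) (M : ℝ) : Prop :=
  ∀ K K' : Finset ℕ, (1 - Real.exp ((((V \ insert v K).card : ℝ) + (V \ K').card) / w - M / 2)) *
    F (insert v K) K' ≤ F K K'

theorem sd_le (V K a : Finset ℕ) : (V \ (K ∪ a)).card ≤ (V \ K).card := by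
  apply Finset.card_le_card
  intro x hx
  simp only [Finset.mem_sdiff, Finset.mem_union, not_or] at hx ⊢
  exact ⟨hx.1, hx.2.1⟩

theorem sd_lt (V K a : Finset ℕ) (ha : a ⊆ V) (h : ¬ a ⊆ K) : (V \ (K ∪ a)).card + 1 ≤ (V \ K).card := by
  rw [Finset.not_subset] at h
  obtain ⟨x, hx, hxK⟩ := h
  apply Finset.card_lt_card
  rw [Finset.ssubset_iff_of_subset]
  · refine ⟨x, ?_, ?_⟩
    · simp only [Finset.mem_sdiff]
      exact ⟨ha hx, hxK⟩
    · simp [hx]
  · intro y hy
    simp only [Finset.mem_sdiff, Finset.mem_union, not_or] at hy ⊢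
    exact ⟨hy.1, hy.2.1⟩

theorem step_plain {ι : Type} (V : Finset ℕ) (w v : ℕ) (F : Finset ℕ → Finset ℕ → ℝ) (M : ℝ)
    (hF : ∀ K K', 0 ≤ F K K') (hC : Cl V w v F M) (Ω : Finset ι) (g : ι → ℝ) (hg : ∀ i ∈ Ω, 0 ≤ g i)
    (a b : ι → Finset ℕ) :
    Cl V w v (fun K K' => ∑ i ∈ Ω, g i * F (K ∪ a i) (K' ∪ b i)) M := by
  intro K K'
  show _ * (∑ i ∈ Ω, g i * F (insert v K ∪ a i) (K' ∪ b i)) ≤ ∑ i ∈ Ω, g i * F (K ∪ a i) (K' ∪ b i)
  rw [Finset.mul_sum]
  refine Finset.sum_le_sum fun i hi => ?_
  have h1 := hC (K ∪ a i) (K' ∪ b i)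
  rw [← Finset.insert_union] at h1
  have h3 : ((V \ (insert v K ∪ a i)).card : ℝ) + (V \ (K' ∪ b i)).card ≤
      ((V \ insert v K).card : ℝ) + (V \ K').card := by
    have e1 := sd_le V (insert v K) (a i)
    have e2 := sd_le V K' (b i)
    exact_mod_cast Nat.add_le_add e1 e2
  have h4 : (((V \ (insert v K ∪ a i)).card : ℝ) + (V \ (K' ∪ b i)).card) / w ≤
      (((V \ insert v K).card : ℝ) + (V \ K').card) / w :=
    div_le_div_of_nonneg_right h3 (Nat.cast_nonneg w)
  have h5 := Real.exp_le_exp.mpr (sub_le_sub_right h4 (M / 2))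
  have h6 := hF (insert v K ∪ a i) (K' ∪ b i)
  have h7 := hg i hi
  have h8 : (1 - Real.exp ((((V \ insert v K).card : ℝ) + (V \ K').card) / w - M / 2)) *
      F (insert v K ∪ a i) (K' ∪ b i) ≤ F (K ∪ a i) (K' ∪ b i) :=
    le_trans (mul_le_mul_of_nonneg_right (by linarith) h6) h1
  calc _ = g i * ((1 - Real.exp ((((V \ insert v K).card : ℝ) + (V \ K').card) / w - M / 2)) *
      F (insert v K ∪ a i) (K' ∪ b i)) := by ring
    _ ≤ _ := mul_le_mul_of_nonneg_left h8 h7

theorem step_solo {ι : Type} [DecidableEq ι] (V : Finset ℕ) (w v : ℕ) (F : Finset ℕ → Finset ℕ → ℝ) (M θ : ℝ)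
    (hF : ∀ K K', 0 ≤ F K K') (hC : Cl V w v F M) (Ω : Finset ι) (g : ι → ℝ) (hg : ∀ i ∈ Ω, 0 ≤ g i)
    (hg1 : ∑ i ∈ Ω, g i ≤ 1)
    (a b : ι → Finset ℕ) (ha : ∀ i, a i ⊆ V) (hb : ∀ i, b i ⊆ V)
    (S : Finset ι) (hS : S ⊆ Ω) (hSa : ∀ i ∈ S, a i = {v}) (hSb : ∀ i ∈ S, b i = ∅)
    (hθ0 : 0 ≤ θ) (hθw : θ ≤ 1 / (w : ℝ)) (hσ : θ ≤ ∑ i ∈ S, g i) :
    Cl V w v (fun K K' => ∑ i ∈ Ω, g i * F (K ∪ a i) (K' ∪ b i)) (2 * θ + M) := by
  intro K K'
  show _ * (∑ i ∈ Ω, g i * F (insert v K ∪ a i) (K' ∪ b i)) ≤ ∑ i ∈ Ω, g i * F (K ∪ a i) (K' ∪ b i)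
  set m : ℝ := ((V \ insert v K).card : ℝ) + (V \ K').card with hm
  set E : ℝ := Real.exp (m / w - M / 2) with hE
  have hEpos : 0 < E := Real.exp_pos _
  have hE' : Real.exp (m / w - (2 * θ + M) / 2) = E * Real.exp (-θ) := by
    rw [hE, ← Real.exp_add]; congr 1; ring
  have hEθ : 1 - θ ≤ Real.exp (-θ) := by
    have := Real.add_one_le_exp (-θ); linarith
  set φ' : ℝ := 1 - Real.exp (m / w - (2 * θ + M) / 2) with hφ'
  have hφ1 : φ' ≤ (1 - E) + θ * E := by
    rw [hφ', hE']
    nlinarith
  set x0 : ℝ := F (insert v K) K' with hx0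
  have hx0n : 0 ≤ x0 := hF _ _
  -- general bound
  have hgen : ∀ i ∈ Ω, (1 - Real.exp ((((V \ (insert v K ∪ a i)).card : ℝ) + (V \ (K' ∪ b i)).card) / w - M / 2)) *
      F (insert v K ∪ a i) (K' ∪ b i) ≤ F (K ∪ a i) (K' ∪ b i) := by
    intro i hi
    have h1 := hC (K ∪ a i) (K' ∪ b i)
    rwa [← Finset.insert_union] at h1
  rw [Finset.mul_sum]
  rw [← Finset.sum_filter_add_sum_filter_not Ω (fun i => a i ⊆ insert v K ∧ b i ⊆ K')
    (fun i => φ' * (g i * F (insert v K ∪ a i) (K' ∪ b i))),
    ← Finset.sum_filter_add_sum_filter_not Ω (fun i => a i ⊆ insert v K ∧ b i ⊆ K')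
    (fun i => g i * F (K ∪ a i) (K' ∪ b i))]
  refine add_le_add ?_ ?_
  · -- no progress
    set N := Ω.filter (fun i => a i ⊆ insert v K ∧ b i ⊆ K') with hN
    have hSN : S ⊆ N := by
      intro i hi
      rw [hN, Finset.mem_filter]
      refine ⟨hS hi, ?_, ?_⟩
      · rw [hSa i hi]; simp
      · rw [hSb i hi]; simp
    have hc : ∑ i ∈ N, g i ≤ 1 := by
      refine le_trans ?_ hg1
      exact Finset.sum_le_sum_of_subset_of_nonneg (Finset.filter_subset _ _) (fun i hi _ => hg i hi)
    have hc0 : 0 ≤ ∑ i ∈ N, g i := Finset.sum_nonneg (fun i hi => hg i (Finset.mem_of_mem_filter i hi))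
    have hL : ∑ i ∈ N, φ' * (g i * F (insert v K ∪ a i) (K' ∪ b i)) = φ' * x0 * ∑ i ∈ N, g i := by
      rw [Finset.mul_sum]
      refine Finset.sum_congr rfl fun i hi => ?_
      rw [hN, Finset.mem_filter] at hi
      rw [Finset.union_eq_left.mpr hi.2.1, Finset.union_eq_left.mpr hi.2.2]
      ring
    have hR : ∑ i ∈ N, (g i * ((1 - E) * x0) + if i ∈ S then g i * (E * x0) else 0) ≤
        ∑ i ∈ N, g i * F (K ∪ a i) (K' ∪ b i) := by
      refine Finset.sum_le_sum fun i hi => ?_
      have hi' := hi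
      rw [hN, Finset.mem_filter] at hi'
      have hgi := hg i hi'.1
      by_cases hiS : i ∈ S
      · rw [if_pos hiS, hSa i hiS, hSb i hiS]
        have : K ∪ {v} = insert v K := by
          ext y; simp [or_comm]
        rw [this, Finset.union_empty]
        apply le_of_eq
        ring
      · rw [if_neg hiS, add_zero]
        refine mul_le_mul_of_nonneg_left ?_ hgi
        have h1 := hgen i hi'.1
        rw [Finset.union_eq_left.mpr hi'.2.1, Finset.union_eq_left.mpr hi'.2.2] at h1
        rw [Finset.union_eq_left.mpr hi'.2.2]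
        exact h1
    rw [Finset.sum_add_distrib, ← Finset.sum_mul, ← Finset.sum_filter, ← Finset.sum_mul] at hR
    have hfS : N.filter (fun i => i ∈ S) = S := by
      ext i
      rw [Finset.mem_filter]
      exact ⟨fun h => h.2, fun h => ⟨hSN h, h⟩⟩
    rw [hfS] at hR
    rw [hL]
    refine le_trans ?_ hR
    set c := ∑ i ∈ N, g i with hcdef
    set σ := ∑ i ∈ S, g i with hσdef
    have h1 : φ' * x0 * c ≤ ((1 - E) + θ * E) * x0 * c :=
      mul_le_mul_of_nonneg_right (mul_le_mul_of_nonneg_right hφ1 hx0n) hc0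
    have hEx : 0 ≤ E * x0 := mul_nonneg hEpos.le hx0n
    have h2 : θ * (E * x0) * c ≤ σ * (E * x0) := by
      have : θ * (E * x0) * c ≤ θ * (E * x0) * 1 :=
        mul_le_mul_of_nonneg_left hc (mul_nonneg hθ0 hEx)
      have h3 : θ * (E * x0) ≤ σ * (E * x0) := mul_le_mul_of_nonneg_right hσ hEx
      linarith
    nlinarith
  · refine Finset.sum_le_sum fun i hi => ?_
    rw [Finset.mem_filter] at hi
    have hgi := hg i hi.1
    have h1 := hgen i hi.1
    have hcard : ((V \ (insert v K ∪ a i)).card : ℝ) + (V \ (K' ∪ b i)).card ≤ m - 1 := by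
      have e1 := sd_le V (insert v K) (a i)
      have e2 := sd_le V K' (b i)
      have : (V \ (insert v K ∪ a i)).card + (V \ (K' ∪ b i)).card + 1 ≤ (V \ insert v K).card + (V \ K').card := by
        by_cases hA : a i ⊆ insert v K
        · have hB : ¬ b i ⊆ K' := fun hB => hi.2 ⟨hA, hB⟩
          have := sd_lt V K' (b i) (hb i) hB
          omega
        · have := sd_lt V (insert v K) (a i) (ha i) hA
          omega
      have h' : ((V \ (insert v K ∪ a i)).card : ℝ) + (V \ (K' ∪ b i)).card + 1 ≤ (V \ insert v K).card + (V \ K').card := by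
        exact_mod_cast this
      rw [hm]; linarith
    have h4 : (((V \ (insert v K ∪ a i)).card : ℝ) + (V \ (K' ∪ b i)).card) / w - M / 2 ≤
        m / w - (2 * θ + M) / 2 := by
      have h5 : (((V \ (insert v K ∪ a i)).card : ℝ) + (V \ (K' ∪ b i)).card) / w ≤ (m - 1) / w :=
        div_le_div_of_nonneg_right hcard (Nat.cast_nonneg w)
      have h6 : (m - 1) / (w : ℝ) = m / w - 1 / w := by ring
      rw [h6] at h5
      linarith
    have h5 := Real.exp_le_exp.mpr h4
    have h6 := hF (insert v K ∪ a i) (K' ∪ b i)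
    have h8 : φ' * F (insert v K ∪ a i) (K' ∪ b i) ≤ F (K ∪ a i) (K' ∪ b i) :=
      le_trans (mul_le_mul_of_nonneg_right (by rw [hφ']; linarith) h6) h1
    calc _ = g i * (φ' * F (insert v K ∪ a i) (K' ∪ b i)) := by ring
      _ ≤ _ := mul_le_mul_of_nonneg_left h8 hgi

theorem hit_sub (V B : Finset ℕ) (p x : ℕ) : hit V B p x ⊆ V := by
  unfold hit
  split_ifs
  · exact Finset.filter_subset _ _
  · simp

open Classical in
theorem J_U (T V B U : Finset ℕ) (D p : ℕ) (l : List ℕ) (hp : p ∈ U) (K K' : Finset ℕ) :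
    J T V B U D (p :: l) K K' = ∑ i ∈ range p ×ˢ range p,
      ((1 / (p : ℝ)) ^ 2 * if av T p i.1 ∧ av T p i.2 then 1 else 0) *
        J T V B U D l (K ∪ hit V B p i.1) (K' ∪ hit V B p i.2) := by
  rw [J, if_pos hp, Finset.sum_product, Finset.mul_sum]
  refine Finset.sum_congr rfl fun x _ => ?_
  rw [Finset.mul_sum]
  refine Finset.sum_congr rfl fun x' _ => ?_
  by_cases h : av T p x ∧ av T p x'
  · simp only [if_pos h]; ring
  · simp only [if_neg h]; ring

open Classical in
theorem J_N (T V B U : Finset ℕ) (D p : ℕ) (l : List ℕ) (hp : p ∉ U) (K K' : Finset ℕ) :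
    J T V B U D (p :: l) K K' = ∑ i ∈ range p,
      ((1 / (p : ℝ)) * if av T p i ∧ av T p ((i + D) % p) then 1 else 0) *
        J T V B U D l (K ∪ hit V B p i) (K' ∪ hit V B p ((i + D) % p)) := by
  rw [J, if_neg hp, Finset.mul_sum]
  refine Finset.sum_congr rfl fun x _ => ?_
  by_cases h : av T p x ∧ av T p ((x + D) % p)
  · simp only [if_pos h]; ring
  · simp only [if_neg h]; ring

open Classical in
theorem gU_nonneg (T : Finset ℕ) (p : ℕ) (i : ℕ × ℕ) :
    (0 : ℝ) ≤ ((1 / (p : ℝ)) ^ 2 * if av T p i.1 ∧ av T p i.2 then 1 else 0) := by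
  split_ifs <;> positivity

open Classical in
theorem gN_nonneg (T : Finset ℕ) (D p : ℕ) (i : ℕ) :
    (0 : ℝ) ≤ ((1 / (p : ℝ)) * if av T p i ∧ av T p ((i + D) % p) then 1 else 0) := by
  split_ifs <;> positivity

open Classical in
theorem gU_sum (T : Finset ℕ) (p : ℕ) (hp : 0 < p) :
    ∑ i ∈ range p ×ˢ range p, ((1 / (p : ℝ)) ^ 2 * if av T p i.1 ∧ av T p i.2 then 1 else 0) ≤ 1 := by
  have hp' : (0 : ℝ) < p := by exact_mod_cast hp
  calc _ ≤ ∑ i ∈ range p ×ˢ range p, ((1 / (p : ℝ)) ^ 2) := by
        refine Finset.sum_le_sum fun i _ => ?_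
        split_ifs
        · simp
        · simp
    _ = 1 := by
        rw [Finset.sum_const, Finset.card_product, Finset.card_range, nsmul_eq_mul]
        push_cast
        field_simp

open Classical in
theorem gN_sum (T : Finset ℕ) (D p : ℕ) (hp : 0 < p) :
    ∑ i ∈ range p, ((1 / (p : ℝ)) * if av T p i ∧ av T p ((i + D) % p) then 1 else 0) ≤ 1 := by
  have hp' : (0 : ℝ) < p := by exact_mod_cast hp
  calc _ ≤ ∑ i ∈ range p, (1 / (p : ℝ)) := by
        refine Finset.sum_le_sum fun i _ => ?_
        split_ifs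
        · simp
        · simp
    _ = 1 := by
        rw [Finset.sum_const, Finset.card_range, nsmul_eq_mul]
        field_simp

theorem J_nonneg (T V B U : Finset ℕ) (D : ℕ) : ∀ (l : List ℕ) (K K' : Finset ℕ), 0 ≤ J T V B U D l K K' := by
  classical
  intro l
  induction l with
  | nil => intro K K'; rw [J]; split_ifs <;> norm_num
  | cons p l ih =>
    intro K K'
    by_cases hp : p ∈ U
    · rw [J_U _ _ _ _ _ _ _ hp]
      exact Finset.sum_nonneg fun i _ => mul_nonneg (gU_nonneg T p i) (ih _ _)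
    · rw [J_N _ _ _ _ _ _ _ hp]
      exact Finset.sum_nonneg fun i _ => mul_nonneg (gN_nonneg T D p i) (ih _ _)

theorem mass_cons (B : Finset ℕ) (H D p : ℕ) (l : List ℕ) (h : p ∈ B ∧ ¬ Col H D p) :
    mass B H D (p :: l) = 1 / (p : ℝ) + mass B H D l := by
  unfold mass
  rw [List.map_cons, List.sum_cons, if_pos h]

theorem mass_cons' (B : Finset ℕ) (H D p : ℕ) (l : List ℕ) (h : ¬ (p ∈ B ∧ ¬ Col H D p)) :
    mass B H D (p :: l) = mass B H D l := by
  unfold mass
  rw [List.map_cons, List.sum_cons, if_neg h, zero_add]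

theorem hit_big (T V B : Finset ℕ) (H w : ℕ) (hR : Reg T V B H w) (p x : ℕ) (hp : H < p) (hx : H < x) :
    hit V B p x = ∅ := by
  unfold hit
  split_ifs
  · rw [Finset.filter_eq_empty_iff]
    intro v hv
    have h1 := hR.V_le v hv
    rw [Nat.mod_eq_of_lt (lt_of_le_of_lt h1 hp)]
    omega
  · rfl

theorem av_big (T V B : Finset ℕ) (H w : ℕ) (hR : Reg T V B H w) (p x : ℕ) (hp : H < p) (hx : H < x) :
    av T p x := by
  intro t ht
  have h1 := hR.T_le t ht
  rw [Nat.mod_eq_of_lt (lt_of_le_of_lt h1 hp)]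
  omega

theorem hit_v (T V B : Finset ℕ) (H w : ℕ) (hR : Reg T V B H w) (p v : ℕ) (hp : H < p) (hB : p ∈ B) (hv : v ∈ V) :
    hit V B p v = {v} := by
  unfold hit
  rw [if_pos hB]
  ext u
  rw [Finset.mem_filter, Finset.mem_singleton]
  constructor
  · rintro ⟨hu, hu'⟩
    have h1 := hR.V_le u hu
    rw [Nat.mod_eq_of_lt (lt_of_le_of_lt h1 hp)] at hu'
    exact hu'
  · rintro rfl
    have h1 := hR.V_le u hv
    exact ⟨hv, Nat.mod_eq_of_lt (lt_of_le_of_lt h1 hp)⟩

theorem av_v (T V B : Finset ℕ) (H w : ℕ) (hR : Reg T V B H w) (p v : ℕ) (hp : H < p) (hv : v ∈ V) :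
    av T p v := by
  intro t ht
  have h1 := hR.T_le t ht
  rw [Nat.mod_eq_of_lt (lt_of_le_of_lt h1 hp)]
  rintro rfl
  exact Finset.disjoint_left.mp hR.disj ht hv

theorem main (T V B U : Finset ℕ) (H w D : ℕ) (hR : Reg T V B H w) (v : ℕ) (hv : v ∈ V) :
    ∀ l : List ℕ, (∀ p ∈ l, 0 < p) →
      Cl V w v (fun K K' => J T V B U D l K K') (mass B H D l) ∧
      Cl V w v (fun K K' => J T V B U D l K' K) (mass B H D l) := by
  classical
  intro l
  induction l with
  | nil =>
    intro _
    have hm : mass B H D [] = 0 := by unfold mass; simp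
    rw [hm]
    have key : ∀ (m x y : ℝ), 0 ≤ m → 0 ≤ x → 0 ≤ y → (1 - Real.exp (m - 0 / 2)) * x ≤ y := by
      intro m x y hm hx hy
      have h1 : 1 ≤ Real.exp (m - 0 / 2) := Real.one_le_exp (by linarith)
      have h2 : (1 - Real.exp (m - 0 / 2)) * x ≤ 0 := mul_nonpos_of_nonpos_of_nonneg (by linarith) hx
      linarith
    constructor
    · intro K K'
      exact key _ _ _ (by positivity) (J_nonneg _ _ _ _ _ _ _ _) (J_nonneg _ _ _ _ _ _ _ _)
    · intro K K'
      exact key _ _ _ (by positivity) (J_nonneg _ _ _ _ _ _ _ _) (J_nonneg _ _ _ _ _ _ _ _)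
  | cons p l ih =>
    intro hl
    have hp0 : 0 < p := hl p (by simp)
    obtain ⟨ih1, ih2⟩ := ih (fun q hq => hl q (by simp [hq]))
    have hF1 : ∀ K K' : Finset ℕ, 0 ≤ (fun K K' => J T V B U D l K K') K K' := fun K K' => J_nonneg _ _ _ _ _ _ _ _
    have hF2 : ∀ K K' : Finset ℕ, 0 ≤ (fun K K' => J T V B U D l K' K) K K' := fun K K' => J_nonneg _ _ _ _ _ _ _ _
    by_cases hpU : p ∈ U
    · have e1 : (fun K K' : Finset ℕ => J T V B U D (p :: l) K K') = fun K K' => ∑ i ∈ range p ×ˢ range p,
          ((1 / (p : ℝ)) ^ 2 * if av T p i.1 ∧ av T p i.2 then 1 else 0) *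
          (fun K K' => J T V B U D l K K') (K ∪ hit V B p i.1) (K' ∪ hit V B p i.2) := by
        funext K K'; exact J_U _ _ _ _ _ _ _ hpU K K'
      have e2 : (fun K K' : Finset ℕ => J T V B U D (p :: l) K' K) = fun K K' => ∑ i ∈ range p ×ˢ range p,
          ((1 / (p : ℝ)) ^ 2 * if av T p i.1 ∧ av T p i.2 then 1 else 0) *
          (fun K K' => J T V B U D l K' K) (K ∪ hit V B p i.2) (K' ∪ hit V B p i.1) := by
        funext K K'; exact J_U _ _ _ _ _ _ _ hpU K' K
      rw [e1, e2]
      by_cases hc : p ∈ B ∧ ¬ Col H D p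
      · have hpw : w ≤ p := hR.B_ge p hc.1
        have hw8 := hR.w_ge
        have hpH : H < p := by omega
        have hp' : (0 : ℝ) < p := by exact_mod_cast hp0
        have hw' : (0 : ℝ) < w := by
          have : 0 < w := by omega
          exact_mod_cast this
        have hvH := hR.V_le v hv
        have hθw : 1 / (2 * (p : ℝ)) ≤ 1 / (w : ℝ) := by
          apply one_div_le_one_div_of_le hw'
          have : (w : ℝ) ≤ p := by exact_mod_cast hpw
          linarith
        have hmass : mass B H D (p :: l) = 2 * (1 / (2 * (p : ℝ))) + mass B H D l := by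
          rw [mass_cons _ _ _ _ _ hc]; congr 1; field_simp
        have hcount : 1 / (2 * (p : ℝ)) ≤ ((p - 1 - H : ℕ) : ℝ) * (1 / (p : ℝ)) ^ 2 := by
          have h1 : (p : ℝ) ≤ 2 * ((p - 1 - H : ℕ) : ℝ) := by
            have : p ≤ 2 * (p - 1 - H) := by omega
            exact_mod_cast this
          have h2 : ((p - 1 - H : ℕ) : ℝ) * (1 / (p : ℝ)) ^ 2 = ((p - 1 - H : ℕ) : ℝ) / ((p : ℝ) * p) := by
            field_simp
          rw [h2, div_le_div_iff₀ (by positivity) (by positivity)]
          nlinarith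
        rw [hmass]
        constructor
        · refine step_solo V w v _ _ _ hF1 ih1 _ _ (fun i _ => gU_nonneg T p i) (gU_sum T p hp0) _ _
            (fun i => hit_sub _ _ _ _) (fun i => hit_sub _ _ _ _) ({v} ×ˢ Finset.Ioo H p) ?_ ?_ ?_ (by positivity) hθw ?_
          · intro i hi
            rw [Finset.mem_product, Finset.mem_singleton, Finset.mem_Ioo] at hi
            rw [Finset.mem_product, Finset.mem_range, Finset.mem_range]
            omega
          · intro i hi
            rw [Finset.mem_product, Finset.mem_singleton, Finset.mem_Ioo] at hi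
            rw [hi.1]
            exact hit_v T V B H w hR p v hpH hc.1 hv
          · intro i hi
            rw [Finset.mem_product, Finset.mem_singleton, Finset.mem_Ioo] at hi
            exact hit_big T V B H w hR p _ hpH hi.2.1
          · have : ∑ i ∈ ({v} : Finset ℕ) ×ˢ Finset.Ioo H p, ((1 / (p : ℝ)) ^ 2 * if av T p i.1 ∧ av T p i.2 then 1 else 0)
                = ∑ i ∈ ({v} : Finset ℕ) ×ˢ Finset.Ioo H p, (1 / (p : ℝ)) ^ 2 := by
              refine Finset.sum_congr rfl fun i hi => ?_
              rw [Finset.mem_product, Finset.mem_singleton, Finset.mem_Ioo] at hi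
              rw [if_pos, mul_one]
              refine ⟨?_, av_big T V B H w hR p _ hpH hi.2.1⟩
              rw [hi.1]
              exact av_v T V B H w hR p v hpH hv
            rw [this, Finset.sum_const, Finset.card_product, Finset.card_singleton, one_mul, Nat.card_Ioo,
              nsmul_eq_mul]
            have h3 : p - H - 1 = p - 1 - H := by omega
            rw [h3]
            exact hcount
        · refine step_solo V w v _ _ _ hF2 ih2 _ _ (fun i _ => gU_nonneg T p i) (gU_sum T p hp0) _ _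
            (fun i => hit_sub _ _ _ _) (fun i => hit_sub _ _ _ _) (Finset.Ioo H p ×ˢ {v}) ?_ ?_ ?_ (by positivity) hθw ?_
          · intro i hi
            rw [Finset.mem_product, Finset.mem_singleton, Finset.mem_Ioo] at hi
            rw [Finset.mem_product, Finset.mem_range, Finset.mem_range]
            omega
          · intro i hi
            rw [Finset.mem_product, Finset.mem_singleton, Finset.mem_Ioo] at hi
            rw [hi.2]
            exact hit_v T V B H w hR p v hpH hc.1 hv
          · intro i hi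
            rw [Finset.mem_product, Finset.mem_singleton, Finset.mem_Ioo] at hi
            exact hit_big T V B H w hR p _ hpH hi.1.1
          · have : ∑ i ∈ Finset.Ioo H p ×ˢ ({v} : Finset ℕ), ((1 / (p : ℝ)) ^ 2 * if av T p i.1 ∧ av T p i.2 then 1 else 0)
                = ∑ i ∈ Finset.Ioo H p ×ˢ ({v} : Finset ℕ), (1 / (p : ℝ)) ^ 2 := by
              refine Finset.sum_congr rfl fun i hi => ?_
              rw [Finset.mem_product, Finset.mem_singleton, Finset.mem_Ioo] at hi
              rw [if_pos, mul_one]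
              refine ⟨av_big T V B H w hR p _ hpH hi.1.1, ?_⟩
              rw [hi.2]
              exact av_v T V B H w hR p v hpH hv
            rw [this, Finset.sum_const, Finset.card_product, Finset.card_singleton, mul_one, Nat.card_Ioo,
              nsmul_eq_mul]
            have h3 : p - H - 1 = p - 1 - H := by omega
            rw [h3]
            exact hcount
      · rw [mass_cons' _ _ _ _ _ hc]
        exact ⟨step_plain V w v _ _ hF1 ih1 _ _ (fun i _ => gU_nonneg T p i) _ _,
          step_plain V w v _ _ hF2 ih2 _ _ (fun i _ => gU_nonneg T p i) _ _⟩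
    · have e1 : (fun K K' : Finset ℕ => J T V B U D (p :: l) K K') = fun K K' => ∑ i ∈ range p,
          ((1 / (p : ℝ)) * if av T p i ∧ av T p ((i + D) % p) then 1 else 0) *
          (fun K K' => J T V B U D l K K') (K ∪ hit V B p i) (K' ∪ hit V B p ((i + D) % p)) := by
        funext K K'; exact J_N _ _ _ _ _ _ _ hpU K K'
      have e2 : (fun K K' : Finset ℕ => J T V B U D (p :: l) K' K) = fun K K' => ∑ i ∈ range p,
          ((1 / (p : ℝ)) * if av T p i ∧ av T p ((i + D) % p) then 1 else 0) *
          (fun K K' => J T V B U D l K' K) (K ∪ hit V B p ((i + D) % p)) (K' ∪ hit V B p i) := by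
        funext K K'; exact J_N _ _ _ _ _ _ _ hpU K' K
      rw [e1, e2]
      by_cases hc : p ∈ B ∧ ¬ Col H D p
      · have hpw : w ≤ p := hR.B_ge p hc.1
        have hw8 := hR.w_ge
        have hpH : H < p := by omega
        have hp' : (0 : ℝ) < p := by exact_mod_cast hp0
        have hw' : (0 : ℝ) < w := by
          have : 0 < w := by omega
          exact_mod_cast this
        have hvH := hR.V_le v hv
        have hθw : 1 / (2 * (p : ℝ)) ≤ 1 / (w : ℝ) := by
          apply one_div_le_one_div_of_le hw'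
          have : (w : ℝ) ≤ p := by exact_mod_cast hpw
          linarith
        have hθp : 1 / (2 * (p : ℝ)) ≤ 1 / (p : ℝ) := by
          apply one_div_le_one_div_of_le hp'
          linarith
        have hmass : mass B H D (p :: l) = 2 * (1 / (2 * (p : ℝ))) + mass B H D l := by
          rw [mass_cons _ _ _ _ _ hc]; congr 1; field_simp
        have hcol : ∀ s s' : ℕ, s ≤ H → (s + D) % p = s' → H < s' := by
          intro s s' hs hs'
          by_contra hcon
          exact hc.2 ⟨s, hs, s', by omega, hs'⟩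
        rw [hmass]
        constructor
        · have hvD : H < (v + D) % p := hcol v _ hvH rfl
          refine step_solo V w v _ _ _ hF1 ih1 _ _ (fun i _ => gN_nonneg T D p i) (gN_sum T D p hp0) _ _
            (fun i => hit_sub _ _ _ _) (fun i => hit_sub _ _ _ _) {v} ?_ ?_ ?_ (by positivity) hθw ?_
          · intro i hi
            rw [Finset.mem_singleton] at hi
            rw [Finset.mem_range]
            omega
          · intro i hi
            rw [Finset.mem_singleton] at hi
            rw [hi]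
            exact hit_v T V B H w hR p v hpH hc.1 hv
          · intro i hi
            rw [Finset.mem_singleton] at hi
            rw [hi]
            exact hit_big T V B H w hR p _ hpH hvD
          · rw [Finset.sum_singleton, if_pos, mul_one]
            · exact hθp
            · exact ⟨av_v T V B H w hR p v hpH hv, av_big T V B H w hR p _ hpH hvD⟩
        · obtain ⟨x, hxp, hxv⟩ : ∃ x, x < p ∧ (x + D) % p = v := by
            refine ⟨(v + (p - D % p)) % p, Nat.mod_lt _ hp0, ?_⟩
            have hD := Nat.mod_lt D hp0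
            rw [Nat.mod_add_mod]
            have h1 : v + (p - D % p) + D = v + p * (1 + D / p) := by
              have := Nat.mod_add_div D p
              have h2 : p * (1 + D / p) = p + p * (D / p) := by ring
              rw [h2]
              omega
            rw [h1, Nat.add_mul_mod_self_left]
            exact Nat.mod_eq_of_lt (by omega)
          have hxH : H < x := by
            by_contra hcon
            have := hcol x v (by omega) hxv
            omega
          refine step_solo V w v _ _ _ hF2 ih2 _ _ (fun i _ => gN_nonneg T D p i) (gN_sum T D p hp0) _ _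
            (fun i => hit_sub _ _ _ _) (fun i => hit_sub _ _ _ _) {x} ?_ ?_ ?_ (by positivity) hθw ?_
          · intro i hi
            rw [Finset.mem_singleton] at hi
            rw [Finset.mem_range]
            omega
          · intro i hi
            rw [Finset.mem_singleton] at hi
            rw [hi, hxv]
            exact hit_v T V B H w hR p v hpH hc.1 hv
          · intro i hi
            rw [Finset.mem_singleton] at hi
            rw [hi]
            exact hit_big T V B H w hR p _ hpH hxH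
          · rw [Finset.sum_singleton, if_pos, mul_one]
            · exact hθp
            · rw [hxv]
              exact ⟨av_big T V B H w hR p _ hpH hxH, av_v T V B H w hR p v hpH hv⟩
      · rw [mass_cons' _ _ _ _ _ hc]
        exact ⟨step_plain V w v _ _ hF1 ih1 _ _ (fun i _ => gN_nonneg T D p i) _ _,
          step_plain V w v _ _ hF2 ih2 _ _ (fun i _ => gN_nonneg T D p i) _ _⟩

theorem t_INS2 : S_INS2 := by
  intro T V B U H w D hR l hl K K' v hv
  obtain ⟨h1, h2⟩ := main T V B U H w D hR v hv l hl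
  have key : ∀ A A' : Finset ℕ, 1 - Real.exp (2 * (V.card : ℝ) / w - mass B H D l / 2) ≤
      1 - Real.exp ((((V \ insert v A).card : ℝ) + (V \ A').card) / w - mass B H D l / 2) := by
    intro A A'
    have e1 : (V \ insert v A).card ≤ V.card := Finset.card_le_card Finset.sdiff_subset
    have e2 : (V \ A').card ≤ V.card := Finset.card_le_card Finset.sdiff_subset
    have e3 : ((V \ insert v A).card : ℝ) + (V \ A').card ≤ 2 * (V.card : ℝ) := by
      have : (V \ insert v A).card + (V \ A').card ≤ 2 * V.card := by omega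
      exact_mod_cast this
    have e4 := div_le_div_of_nonneg_right e3 (Nat.cast_nonneg w : (0 : ℝ) ≤ (w : ℝ))
    have e5 := Real.exp_le_exp.mpr (sub_le_sub_right e4 (mass B H D l / 2))
    linarith
  constructor
  · exact le_trans (mul_le_mul_of_nonneg_right (key K K') (J_nonneg _ _ _ _ _ _ _ _)) (h1 K K')
  · exact le_trans (mul_le_mul_of_nonneg_right (key K' K) (J_nonneg _ _ _ _ _ _ _ _)) (h2 K' K)

end Pool.Agent.V5helper72.LR
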